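import Pool.Agent.X50.WS.Final

/-!
# Weakly spreading linear triple systems have at least `(1 + 10⁻⁷) n` triples

MP_9978f8_co, Q1: `liminf ξ_wsp(n)/n > 1`.

Sketch.  Let `F` be weakly spreading, `m = |F|`, and suppose `m < (1 + 10⁻⁷) n`.  For any two
triples there is a covered pair joining them, hence all degrees are at most `√(7 m)`, and the
pairs of triples are served by covered pairs of *hubs* (vertices of degree at least `c √m`), so
that at least `m/43` triples contain two hubs; there are only `O(√m)` hubs and few triples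
without hubs.  Starting the closure process from the set of hubs, all but a small proportion of
the triples are used exactly once, to reach one new vertex.  So outside the hubs the triples
form a forest, and for most triples with two hubs the tree hanging at the third vertex is
reached only through it.  There are two such triples such that all covered pairs among
their (at most four) hubs belong to such triples; their closure contains no further hub.
-/

set_option autoImplicit false
open Finset

namespace Pool.Agent.Results.MP_9978f8_co.AboveOne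

/-- A linear triple system on `Fin n`: all members have three elements, and two distinct members
share at most one vertex. -/
def LinearTripleSystem {n : ℕ} (F : Finset (Finset (Fin n))) : Prop :=
  (∀ T ∈ F, T.card = 3) ∧ ∀ S ∈ F, ∀ T ∈ F, S ≠ T → (S ∩ T).card ≤ 1

/-- The neighbourhood `N(W)`: the vertices `z` outside `W` such that `{x, y, z}` is a triple for
some distinct `x, y ∈ W`. -/
def nbhd {n : ℕ} (F : Finset (Finset (Fin n))) (W : Finset (Fin n)) : Set (Fin n) :=
  {z | z ∉ W ∧ ∃ x ∈ W, ∃ y ∈ W, x ≠ y ∧ ({x, y, z} : Finset (Fin n)) ∈ F}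

/-- The closure of `A`: the intersection of all `W ⊇ A` with `N(W) = ∅` (the smallest such `W`). -/
def closure {n : ℕ} (F : Finset (Finset (Fin n))) (A : Finset (Fin n)) : Set (Fin n) :=
  {v | ∀ W : Finset (Fin n), A ⊆ W → nbhd F W = ∅ → v ∈ W}

/-- Weakly spreading: the closure of the union of any at least two triples is everything. -/
def WeaklySpreading {n : ℕ} (F : Finset (Finset (Fin n))) : Prop :=
  ∀ F' ⊆ F, 2 ≤ F'.card → closure F (F'.biUnion id) = Set.univ

/-- `ξ_wsp(n)`: the minimum of `|F|` over all weakly spreading linear triple systems `F` on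
`n` vertices with at least two triples (`⊤` if there is none). -/
noncomputable def xi (n : ℕ) : ℕ∞ :=
  ⨅ (F : Finset (Finset (Fin n)))
    (_ : LinearTripleSystem F ∧ 2 ≤ F.card ∧ WeaklySpreading F), (F.card : ℕ∞)

open Pool.Agent.X50.WS in
theorem lower_card {n : ℕ} (hn : 243 * 10 ^ 28 ≤ n) (F : Finset (Finset (Fin n)))
    (hF : LinearTripleSystem F) (h2 : 2 ≤ F.card) (hw : WeaklySpreading F) :
    (10 ^ 7 + 1) * n ≤ 10 ^ 7 * F.card := by
  classical
  have hsys : Sys F := by
    refine ⟨hF.1, ?_, ?_, ?_⟩
    · intro S hS T hT x y hxS hyS hxT hyT hxy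
      by_contra hne
      have h1 := hF.2 S hS T hT hne
      have h3 : ({x, y} : Finset (Fin n)) ⊆ S ∩ T := by
        intro c hc
        simp only [mem_insert, mem_singleton] at hc
        rcases hc with rfl | rfl
        · exact mem_inter.2 ⟨hxS, hxT⟩
        · exact mem_inter.2 ⟨hyS, hyT⟩
      have h4 := card_le_card h3
      rw [card_pair hxy] at h4
      omega
    · intro S hS T hT hne W hSW hTW hW v
      have hv : v ∈ closure F (({S, T} : Finset (Finset (Fin n))).biUnion id) := by
        rw [hw {S, T} (by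
          intro R hR
          simp only [mem_insert, mem_singleton] at hR
          rcases hR with rfl | rfl <;> assumption) (by rw [card_pair hne])]
        exact Set.mem_univ v
      refine hv W ?_ ?_
      · intro x hx
        obtain ⟨R, hR, hxR⟩ := mem_biUnion.1 hx
        simp only [mem_insert, mem_singleton] at hR
        rcases hR with rfl | rfl
        · exact hSW hxR
        · exact hTW hxR
      · rw [Set.eq_empty_iff_forall_notMem]
        rintro z ⟨hz, x, hx, y, hy, hxy, hT⟩
        exact hz (hW _ hT x (by simp) y (by simp) hxy hx hy (by simp))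
    · rw [Fintype.card_fin]; omega
  have := lower hsys h2 (by rw [Fintype.card_fin]; exact hn)
  rwa [Fintype.card_fin] at this

/-- Every weakly spreading linear triple system with at least two triples on
`n ≥ 2.43 * 10^30` vertices has at least `(1 + 10⁻⁷) n` triples, and
`liminf ξ_wsp(n)/n > 1`. -/
theorem result :
    (∀ n : ℕ, 243 * 10 ^ 28 ≤ n → ∀ F : Finset (Finset (Fin n)), LinearTripleSystem F →
      2 ≤ F.card → WeaklySpreading F → (1 + 1 / 10 ^ 7 : ℝ) * n ≤ F.card) ∧
    1 < Filter.liminf (fun n : ℕ => ((xi n : ℕ∞) : ENNReal) / (n : ENNReal)) Filter.atTop := by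
  have hA : ∀ n : ℕ, 243 * 10 ^ 28 ≤ n → ∀ F : Finset (Finset (Fin n)), LinearTripleSystem F →
      2 ≤ F.card → WeaklySpreading F → (1 + 1 / 10 ^ 7 : ℝ) * n ≤ F.card := by
    intro n hn F hF h2 hw
    have h := lower_card hn F hF h2 hw
    have h' : ((10 : ℝ) ^ 7 + 1) * n ≤ 10 ^ 7 * F.card := by exact_mod_cast h
    linarith
  refine ⟨hA, ?_⟩
  have hC : (1 : ENNReal) < ENNReal.ofReal (1 + 1 / 10 ^ 7) := by
    rw [← ENNReal.ofReal_one]
    exact (ENNReal.ofReal_lt_ofReal_iff (by norm_num)).2 (by norm_num)
  refine lt_of_lt_of_le hC (Filter.le_liminf_of_le (by isBoundedDefault) ?_)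
  filter_upwards [Filter.eventually_ge_atTop (243 * 10 ^ 28)] with n hn
  have hxi : ((⌈(1 + 1 / 10 ^ 7 : ℝ) * n⌉₊ : ℕ) : ℕ∞) ≤ xi n := by
    refine le_iInf fun F => le_iInf fun hF => ?_
    exact_mod_cast Nat.ceil_le.2 (hA n hn F hF.1 hF.2.1 hF.2.2)
  have hxi' : (((⌈(1 + 1 / 10 ^ 7 : ℝ) * n⌉₊ : ℕ) : ℕ∞) : ENNReal) ≤ ((xi n : ℕ∞) : ENNReal) :=
    ENat.toENNReal_le.2 hxi
  have hn0 : (n : ENNReal) ≠ 0 := by
    exact_mod_cast (by omega : n ≠ 0)
  rw [ENNReal.le_div_iff_mul_le (Or.inl hn0) (Or.inl (ENNReal.natCast_ne_top n))]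
  refine le_trans ?_ hxi'
  rw [← ENNReal.ofReal_natCast, ← ENNReal.ofReal_mul (by norm_num)]
  calc ENNReal.ofReal ((1 + 1 / 10 ^ 7) * (n : ℝ)) ≤
        ENNReal.ofReal ((⌈(1 + 1 / 10 ^ 7 : ℝ) * n⌉₊ : ℕ) : ℝ) :=
        ENNReal.ofReal_le_ofReal (Nat.le_ceil _)
    _ = _ := by rw [ENNReal.ofReal_natCast]; rfl

end Pool.Agent.Results.MP_9978f8_co.AboveOne
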